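import Pool.Agent.Lib.MP_ba0fa5_ag.AA.H75.Boxl

/-!
# Module FIRST: number of representations by one quadruple, lower bound
-/

set_option autoImplicit false

namespace Pool.Agent.Lib.MP_ba0fa5_ag.AA.H75

open scoped Classical
open Finset

theorem first (hR : RjlowStmt) : FirstStmt := by
  intro ε hε
  obtain ⟨δ, hδ, hδε, hδ1⟩ : ∃ δ : ℝ, 0 < δ ∧ 2 * δ ≤ ε ∧ δ ≤ 1 / 2 :=
    ⟨min (ε / 2) (1 / 2), lt_min (by positivity) (by norm_num), by
      have := min_le_left (ε / 2) (1 / 2); linarith, min_le_right _ _⟩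
  obtain ⟨B, hB⟩ := hR δ hδ
  refine ⟨B + 3, fun A => ?_⟩
  obtain ⟨J, hJ2, hJ⟩ := hB A
  refine ⟨J, hJ2, fun W hW => ?_⟩
  obtain ⟨z₀, hz₀⟩ := hJ W hW
  obtain ⟨n₁, hn₁⟩ := exists_nat_ge (1 / δ)
  refine ⟨z₀ + n₁ + 2, ?_⟩
  intro Z X N₀ c hZ hX1 hX2 hc hNc q hq
  have hZ2 : 2 ≤ Z := by omega
  have hzZ : Z ≤ zz Z := by rw [zz]; exact Nat.le_self_pow (by norm_num) Z
  have hzpos : 0 < zz Z := by omega
  have hHpos := HH_pos hq
  have hHz := HH_le_zz (by omega) hq
  obtain ⟨Y, hY⟩ : ∃ Y, Y = X / HH q := ⟨_, rfl⟩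
  have hYlow : zz Z ^ (B + 1) ≤ Y := by
    rw [hY, Nat.le_div_iff_mul_le hHpos]
    calc zz Z ^ (B + 1) * HH q ≤ zz Z ^ (B + 1) * zz Z ^ 2 := Nat.mul_le_mul_left _ hHz
      _ = zz Z ^ (B + 3) := by rw [← pow_add]
      _ ≤ X := hX1
  have hYup : Y ≤ zz Z ^ A := by rw [hY]; exact (Nat.div_le_self _ _).trans hX2
  -- the class of `y`
  have hHQ := box_coprime hc hq
  have hQpos := primorial_pos W
  obtain ⟨y₀, hy₀⟩ : ∃ y₀ : ℕ, y₀ * HH q ≡ N₀ + bb q [MOD primorial W] := by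
    obtain ⟨m, hm⟩ := Nat.exists_mul_mod_eq_of_coprime (n := HH q) (k := primorial W)
      (N₀ + bb q) hHQ (by omega)
    exact ⟨m, by rw [mul_comm]; exact hm.2⟩
  have hy₀c : y₀.Coprime (primorial W) := by
    have h1 : (y₀ * HH q).Coprime (primorial W) := by
      rw [Nat.Coprime, hy₀.gcd_eq, (Nat.ModEq.add_left N₀ (bb_modEq hq)).gcd_eq]
      exact hNc
    exact Nat.Coprime.coprime_dvd_left (Dvd.intro _ rfl) h1
  have hmain := hz₀ (zz Z) Y y₀ (by omega)
    ((Nat.pow_le_pow_right hzpos (by omega)).trans hYlow) hYup hy₀c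
  -- injection
  have hinj : ((Icc 1 Y).filter (fun n => n ≡ y₀ [MOD primorial W] ∧ RJ (zz Z) J n)).card ≤
      ((NN W X N₀).filter (Rp Z J q)).card := by
    have hbH := bb_lt_HH hZ2 hq
    have hge : ∀ y : ℕ, 1 ≤ y → bb q < y * HH q := fun y hy =>
      hbH.trans_le (Nat.le_mul_of_pos_left _ hy)
    refine card_le_card_of_injOn (fun y => y * HH q - bb q) ?_ ?_
    · intro y hy
      simp only [coe_filter, Set.mem_ofPred_eq, mem_Icc] at hy
      obtain ⟨⟨a1, a2⟩, a3, a4⟩ := hy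
      have h1 := hge y a1
      have h2 : y * HH q - bb q + bb q = y * HH q := Nat.sub_add_cancel h1.le
      have h3 : y * HH q ≤ X := by
        have := Nat.mul_le_mul_right (HH q) a2
        rw [hY] at this
        exact this.trans (Nat.div_mul_le_self X (HH q))
      simp only [coe_filter, Set.mem_ofPred_eq, NN, mem_filter, mem_Icc]
      refine ⟨⟨⟨by omega, by omega⟩, ?_⟩, ?_⟩
      · have h4 : y * HH q - bb q + bb q ≡ N₀ + bb q [MOD primorial W] := by
          rw [h2]; exact (a3.mul_right _).trans hy₀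
        exact Nat.ModEq.add_right_cancel' _ h4
      · rw [Rp, h2]
        refine ⟨Dvd.intro_left _ rfl, ?_⟩
        rw [Nat.mul_div_cancel _ hHpos]
        exact a4
    · intro y hy y' hy' he
      simp only [coe_filter, Set.mem_ofPred_eq, mem_Icc] at hy hy'
      have h1 := hge y hy.1.1
      have h2 := hge y' hy'.1.1
      have h3 : y * HH q = y' * HH q := by
        simp only at he; omega
      exact Nat.eq_of_mul_eq_mul_right hHpos h3
  have hinjR : (((Icc 1 Y).filter (fun n => n ≡ y₀ [MOD primorial W] ∧ RJ (zz Z) J n)).card : ℝ) ≤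
      (((NN W X N₀).filter (Rp Z J q)).card : ℝ) := by exact_mod_cast hinj
  refine le_trans ?_ (hmain.trans hinjR)
  -- numbers
  have hHR : (0 : ℝ) < HH q := by exact_mod_cast hHpos
  have hQR : (0 : ℝ) < (primorial W : ℝ) := by exact_mod_cast hQpos
  have hV := VV_pos W (zz Z)
  have hYR : (1 - δ) * ((X : ℝ) / HH q) ≤ Y := by
    have e1 : (X : ℝ) / HH q < Y + 1 := by
      rw [div_lt_iff₀ hHR]
      have : X < (X / HH q + 1) * HH q := by
        have := Nat.lt_div_mul_add hHpos (a := X)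
        linarith [this, add_mul (X / HH q) 1 (HH q)]
      rw [← hY] at this
      exact_mod_cast this
    have e2 : 1 ≤ δ * ((X : ℝ) / HH q) := by
      have f1 : (n₁ : ℝ) ≤ (X : ℝ) / HH q := by
        rw [le_div_iff₀ hHR]
        have : n₁ * HH q ≤ X := by
          have g1 : n₁ ≤ Y := by
            have g2 : zz Z ≤ zz Z ^ (B + 1) := Nat.le_self_pow (by omega) _
            omega
          calc n₁ * HH q ≤ Y * HH q := Nat.mul_le_mul_right _ g1
            _ ≤ X := by rw [hY]; exact Nat.div_mul_le_self X (HH q)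
        exact_mod_cast this
      have f2 : 1 / δ ≤ (X : ℝ) / HH q := hn₁.trans f1
      rw [div_le_iff₀ hδ] at f2
      linarith
    linarith
  have hX0 : (0 : ℝ) ≤ (X : ℝ) / HH q := by positivity
  calc (1 - ε) * ((X : ℝ) / ((primorial W : ℝ) * HH q)) * VV W (zz Z)
      = (1 - ε) * ((X : ℝ) / HH q) / (primorial W : ℝ) * VV W (zz Z) := by
        field_simp
    _ ≤ ((1 - δ) * ((1 - δ) * ((X : ℝ) / HH q))) / (primorial W : ℝ) * VV W (zz Z) := by
        gcongr ?_ / _ * _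
        nlinarith [mul_nonneg (sq_nonneg δ) hX0]
    _ ≤ ((1 - δ) * Y) / (primorial W : ℝ) * VV W (zz Z) := by
        gcongr
        linarith
    _ = (1 - δ) * ((Y : ℝ) / (primorial W : ℝ)) * VV W (zz Z) := by ring

end Pool.Agent.Lib.MP_ba0fa5_ag.AA.H75
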