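import Pool.Agent.Lib.MP_ba0fa5_ag.AA.H75.Boxl

/-!
# Module SECOND: the pairs of quadruples with different shifts
-/

set_option autoImplicit false

namespace Pool.Agent.Lib.MP_ba0fa5_ag.AA.H75

open scoped Classical
open Finset

theorem Ph_le (W z n : ℕ) (hn : 1 ≤ n) : Ph W z n ≤ n / n.totient := by
  have h1 : ((n.totient : ℕ) : ℝ) = n * ∏ l ∈ n.primeFactors, (1 - 1 / (l : ℝ)) := by
    have h := Nat.totient_eq_mul_prod_factors n
    have h' : (((n.totient : ℕ) : ℚ) : ℝ) =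
        ((n * ∏ p ∈ n.primeFactors, (1 - (p : ℚ)⁻¹) : ℚ) : ℝ) := by rw [h]
    push_cast at h'
    simpa [one_div] using h'
  have hpos : ∀ l ∈ n.primeFactors, (0 : ℝ) < 1 - 1 / (l : ℝ) ∧ 1 - 1 / (l : ℝ) ≤ 1 := by
    intro l hl
    have hp := Nat.prime_of_mem_primeFactors hl
    have h2 : (1 : ℝ) / l < 1 := by
      rw [div_lt_one (by exact_mod_cast hp.pos)]
      exact_mod_cast hp.one_lt
    have h3 : (0 : ℝ) ≤ 1 / l := by positivity
    exact ⟨by linarith, by linarith⟩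
  have hn0 : (0 : ℝ) < n := by exact_mod_cast hn
  have hprod : 0 < ∏ l ∈ n.primeFactors, (1 - 1 / (l : ℝ)) := prod_pos fun l hl => (hpos l hl).1
  have h2 : (n : ℝ) / n.totient = ∏ l ∈ n.primeFactors, (1 - 1 / (l : ℝ))⁻¹ := by
    rw [h1, prod_inv_distrib]
    field_simp
  rw [h2, Ph, prod_filter]
  refine prod_le_prod (fun l hl => ?_) fun l hl => ?_
  · split_ifs
    · exact inv_nonneg.2 (hpos l hl).1.le
    · exact zero_le_one
  · split_ifs
    · exact le_rfl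
    · exact (one_le_inv₀ (hpos l hl).1).2 (hpos l hl).2

theorem second (hP : PairStmt) (hE : ExpStmt) : SecondStmt := by
  obtain ⟨C, hC, hE⟩ := hE
  refine ⟨C, hC, fun ε hε => ?_⟩
  obtain ⟨B, hB⟩ := hP ε hε
  refine ⟨B + 5, fun W hW => ?_⟩
  obtain ⟨Z₁, hZ₁⟩ := hE W hW
  refine ⟨Z₁ + primorial W + 2, ?_⟩
  intro Z X N₀ c hZ hX hc
  have hZ2 : 2 ≤ Z := by omega
  have hzZ : Z ≤ zz Z := by rw [zz]; exact Nat.le_self_pow (by norm_num) Z
  have hexp := hZ₁ Z c (by omega) hc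
  have hV := VV_pos W (zz Z)
  have hQpos := primorial_pos W
  have hQR : (0 : ℝ) < (primorial W : ℝ) := by exact_mod_cast hQpos
  -- one pair
  have hone : ∀ p ∈ (Box W c Z ×ˢ Box W c Z).filter (fun p => bb p.1 ≠ bb p.2),
      ws (HH p.1) * ws (HH p.2) * 4 ^ ((HH p.1).gcd (HH p.2)).primeFactors.card *
        (((NN W X N₀).filter (fun N => Rw Z p.1 N ∧ Rw Z p.2 N)).card : ℝ) ≤
      if (((HH p.1).gcd (HH p.2) : ℕ) : ℤ) ∣ (bb p.1 : ℤ) - bb p.2 then
        (1 + ε) * ((X : ℝ) / (primorial W : ℝ)) * VV W (zz Z) ^ 2 * pairWt W Z p else 0 := by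
    intro p hp
    rw [mem_filter, mem_product] at hp
    obtain ⟨⟨hp1, hp2⟩, hbb⟩ := hp
    have h1 := HH_pos hp1
    have h2 := HH_pos hp2
    have hsize : zz Z ^ B * primorial W * HH p.1 * HH p.2 ≤ X := by
      calc zz Z ^ B * primorial W * HH p.1 * HH p.2
          ≤ zz Z ^ B * zz Z * zz Z ^ 2 * zz Z ^ 2 :=
            Nat.mul_le_mul (Nat.mul_le_mul (Nat.mul_le_mul_left _ (by omega))
              (HH_le_zz (by omega) hp1)) (HH_le_zz (by omega) hp2)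
        _ = zz Z ^ (B + 5) := by ring
        _ ≤ X := hX
    have hpair := hB W (zz Z) X N₀ (HH p.1) (HH p.2) (bb p.1) (bb p.2) hW (by omega) h1 h2
      (box_coprime hc hp1) (box_coprime hc hp2) hbb hsize
    have hcoef : 0 ≤ ws (HH p.1) * ws (HH p.2) *
        4 ^ ((HH p.1).gcd (HH p.2)).primeFactors.card :=
      mul_nonneg (mul_nonneg (ws_nonneg _) (ws_nonneg _)) (by positivity)
    have hcard : (((NN W X N₀).filter (fun N => Rw Z p.1 N ∧ Rw Z p.2 N)).card : ℝ) ≤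
        if (((HH p.1).gcd (HH p.2) : ℕ) : ℤ) ∣ (bb p.1 : ℤ) - bb p.2 then
      (1 + ε) * ((X : ℝ) * ((HH p.1).gcd (HH p.2) : ℝ) /
        ((primorial W : ℝ) * HH p.1 * HH p.2)) * VV W (zz Z) ^ 2 *
        (Ph W (zz Z) (HH p.1) * Ph W (zz Z) (HH p.2) *
          Ph W (zz Z) ((bb p.1 : ℤ) - bb p.2).natAbs)
    else 0 := by
      convert hpair using 3
      ext N
      rw [mem_filter, mem_filter]
      rfl
    have h3 := mul_le_mul_of_nonneg_left hcard hcoef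
    refine h3.trans ?_
    split_ifs with hd
    · have e1 := Ph_le W (zz Z) (HH p.1) h1
      have e2 := Ph_le W (zz Z) (HH p.2) h2
      have n1 := Ph_nonneg W (zz Z) (HH p.1)
      have n2 := Ph_nonneg W (zz Z) (HH p.2)
      have n3 := Ph_nonneg W (zz Z) ((bb p.1 : ℤ) - bb p.2).natAbs
      have w1 := ws_nonneg (HH p.1)
      have w2 := ws_nonneg (HH p.2)
      have hR1 : (0 : ℝ) < HH p.1 := by exact_mod_cast h1
      have hR2 : (0 : ℝ) < HH p.2 := by exact_mod_cast h2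
      have f1 : ws (HH p.1) * Ph W (zz Z) (HH p.1) / HH p.1 ≤ fw (HH p.1) := by
        rw [fw, div_le_iff₀ hR1]
        calc ws (HH p.1) * Ph W (zz Z) (HH p.1)
            ≤ ws (HH p.1) * (HH p.1 / (HH p.1).totient) := mul_le_mul_of_nonneg_left e1 w1
          _ = ws (HH p.1) / (HH p.1).totient * HH p.1 := by ring
      have f2 : ws (HH p.2) * Ph W (zz Z) (HH p.2) / HH p.2 ≤ fw (HH p.2) := by
        rw [fw, div_le_iff₀ hR2]
        calc ws (HH p.2) * Ph W (zz Z) (HH p.2)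
            ≤ ws (HH p.2) * (HH p.2 / (HH p.2).totient) := mul_le_mul_of_nonneg_left e2 w2
          _ = ws (HH p.2) / (HH p.2).totient * HH p.2 := by ring
      have g1 : 0 ≤ ws (HH p.1) * Ph W (zz Z) (HH p.1) / HH p.1 := by positivity
      have g2 : 0 ≤ ws (HH p.2) * Ph W (zz Z) (HH p.2) / HH p.2 := by positivity
      have f3 := mul_le_mul f1 f2 g2 (g1.trans f1)
      have hK : 0 ≤ (1 + ε) * ((X : ℝ) / (primorial W : ℝ)) * VV W (zz Z) ^ 2 *
          (4 ^ ((HH p.1).gcd (HH p.2)).primeFactors.card * ((HH p.1).gcd (HH p.2) : ℝ) *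
            Ph W (zz Z) ((bb p.1 : ℤ) - bb p.2).natAbs) := by positivity
      calc ws (HH p.1) * ws (HH p.2) * 4 ^ ((HH p.1).gcd (HH p.2)).primeFactors.card *
            ((1 + ε) * ((X : ℝ) * ((HH p.1).gcd (HH p.2) : ℝ) /
              ((primorial W : ℝ) * HH p.1 * HH p.2)) * VV W (zz Z) ^ 2 *
              (Ph W (zz Z) (HH p.1) * Ph W (zz Z) (HH p.2) *
                Ph W (zz Z) ((bb p.1 : ℤ) - bb p.2).natAbs))
          = (1 + ε) * ((X : ℝ) / (primorial W : ℝ)) * VV W (zz Z) ^ 2 *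
              (4 ^ ((HH p.1).gcd (HH p.2)).primeFactors.card * ((HH p.1).gcd (HH p.2) : ℝ) *
                Ph W (zz Z) ((bb p.1 : ℤ) - bb p.2).natAbs) *
              (ws (HH p.1) * Ph W (zz Z) (HH p.1) / HH p.1 *
                (ws (HH p.2) * Ph W (zz Z) (HH p.2) / HH p.2)) := by
            field_simp
        _ ≤ (1 + ε) * ((X : ℝ) / (primorial W : ℝ)) * VV W (zz Z) ^ 2 *
              (4 ^ ((HH p.1).gcd (HH p.2)).primeFactors.card * ((HH p.1).gcd (HH p.2) : ℝ) *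
                Ph W (zz Z) ((bb p.1 : ℤ) - bb p.2).natAbs) *
              (fw (HH p.1) * fw (HH p.2)) := mul_le_mul_of_nonneg_left f3 hK
        _ = (1 + ε) * ((X : ℝ) / (primorial W : ℝ)) * VV W (zz Z) ^ 2 * pairWt W Z p := by
            rw [pairWt]; ring
    · rw [mul_zero]
  refine (sum_le_sum hone).trans ?_
  rw [← sum_filter, filter_filter, ← mul_sum]
  have hK2 : 0 ≤ (1 + ε) * ((X : ℝ) / (primorial W : ℝ)) * VV W (zz Z) ^ 2 := by positivity
  have hexp' : ∑ p ∈ (Box W c Z ×ˢ Box W c Z).filter (fun p => bb p.1 ≠ bb p.2 ∧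
      (((HH p.1).gcd (HH p.2) : ℕ) : ℤ) ∣ (bb p.1 : ℤ) - bb p.2), pairWt W Z p ≤
      (1 + C * (W : ℝ) ^ (-(1 / 4) : ℝ)) * mass W c Z ^ 2 := by
    convert hexp using 2
  calc (1 + ε) * ((X : ℝ) / (primorial W : ℝ)) * VV W (zz Z) ^ 2 *
        ∑ p ∈ (Box W c Z ×ˢ Box W c Z).filter (fun p => bb p.1 ≠ bb p.2 ∧
      (((HH p.1).gcd (HH p.2) : ℕ) : ℤ) ∣ (bb p.1 : ℤ) - bb p.2), pairWt W Z p
      ≤ (1 + ε) * ((X : ℝ) / (primorial W : ℝ)) * VV W (zz Z) ^ 2 *
        ((1 + C * (W : ℝ) ^ (-(1 / 4) : ℝ)) * mass W c Z ^ 2) :=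
        mul_le_mul_of_nonneg_left hexp' hK2
    _ = _ := by ring

end Pool.Agent.Lib.MP_ba0fa5_ag.AA.H75
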