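import Pool.Agent.Lib.MP_ba0fa5_ag.AA.H75.Pair

/-!
# Basic facts on the members of `Box`
-/

set_option autoImplicit false

namespace Pool.Agent.Lib.MP_ba0fa5_ag.AA.H75

open scoped Classical
open Finset

theorem mem_cls {W a lo hi n : ℕ} : n ∈ cls W a lo hi ↔ (lo < n ∧ n ≤ hi) ∧
    n ≡ a [MOD primorial W] := by
  rw [cls, mem_filter, mem_Ioc]

theorem cls_coprime {W a lo hi n : ℕ} (ha : a.Coprime (primorial W)) (hn : n ∈ cls W a lo hi) :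
    n.Coprime (primorial W) := by
  have h := (mem_cls.1 hn).2
  rw [Nat.Coprime, h.gcd_eq]
  exact ha

theorem neg_coprime {W c : ℕ} (hc : c.Coprime (primorial W)) :
    ((primorial W - 1) * c).Coprime (primorial W) := by
  refine Nat.Coprime.mul_left ?_ hc
  have h := primorial_pos W
  rw [Nat.coprime_comm]
  have e : primorial W = (primorial W - 1) + 1 := by omega
  conv_lhs => rw [e]
  simp

theorem mem_box {W c Z : ℕ} {q : ℕ × ℕ × ℕ × ℕ} (hq : q ∈ Box W c Z) :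
    q.1 ∈ cls W c Z (Z ^ 3) ∧ q.2.1 ∈ cls W c (Z ^ 10) ((Z ^ 10) ^ 3) ∧
    q.2.2.1 ∈ cls W ((primorial W - 1) * c) (Z ^ 100) ((Z ^ 100) ^ 3) ∧
    q.2.2.2 ∈ cls W 1 Z (Z ^ 3) ∧ Cop q := by
  rw [Box, mem_filter, BoxAll, mem_product, mem_product, mem_product] at hq
  exact ⟨hq.1.1, hq.1.2.1, hq.1.2.2.1, hq.1.2.2.2, hq.2⟩

theorem box_coprime {W c Z : ℕ} (hc : c.Coprime (primorial W)) {q : ℕ × ℕ × ℕ × ℕ}
    (hq : q ∈ Box W c Z) : (HH q).Coprime (primorial W) := by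
  obtain ⟨h1, h2, h3, h4, -⟩ := mem_box hq
  exact (((cls_coprime hc h1).mul_left (cls_coprime hc h2)).mul_left
    (cls_coprime (neg_coprime hc) h3)).mul_left (cls_coprime (Nat.coprime_one_left _) h4)

theorem HH_pos {W c Z : ℕ} {q : ℕ × ℕ × ℕ × ℕ} (hq : q ∈ Box W c Z) : 0 < HH q := by
  obtain ⟨h1, h2, h3, h4, -⟩ := mem_box hq
  rw [mem_cls] at h1 h2 h3 h4
  have a1 : 0 < q.1 := by omega
  have a2 : 0 < q.2.1 := by omega
  have a3 : 0 < q.2.2.1 := by omega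
  have a4 : 0 < q.2.2.2 := by omega
  rw [HH]; positivity

theorem HH_le {W c Z : ℕ} {q : ℕ × ℕ × ℕ × ℕ} (hq : q ∈ Box W c Z) : HH q ≤ Z ^ 336 := by
  obtain ⟨h1, h2, h3, h4, -⟩ := mem_box hq
  rw [mem_cls] at h1 h2 h3 h4
  calc HH q = q.1 * q.2.1 * q.2.2.1 * q.2.2.2 := rfl
    _ ≤ Z ^ 3 * (Z ^ 10) ^ 3 * (Z ^ 100) ^ 3 * Z ^ 3 :=
        Nat.mul_le_mul (Nat.mul_le_mul (Nat.mul_le_mul h1.1.2 h2.1.2) h3.1.2) h4.1.2
    _ = Z ^ 336 := by ring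

theorem HH_le_zz {W c Z : ℕ} (hZ : 1 ≤ Z) {q : ℕ × ℕ × ℕ × ℕ} (hq : q ∈ Box W c Z) :
    HH q ≤ zz Z ^ 2 := by
  refine (HH_le hq).trans ?_
  rw [zz, ← pow_mul]
  exact Nat.pow_le_pow_right hZ (by norm_num)

theorem bb_le {W c Z : ℕ} (hZ : 1 ≤ Z) {q : ℕ × ℕ × ℕ × ℕ} (hq : q ∈ Box W c Z) :
    bb q ≤ 3 * Z ^ 300 := by
  obtain ⟨h1, h2, h3, h4, -⟩ := mem_box hq
  rw [mem_cls] at h1 h2 h3 h4
  have e1 : Z ^ 3 ≤ Z ^ 300 := Nat.pow_le_pow_right hZ (by norm_num)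
  have e2 : (Z ^ 10) ^ 3 ≤ Z ^ 300 := by
    rw [← pow_mul]; exact Nat.pow_le_pow_right hZ (by norm_num)
  have e3 : (Z ^ 100) ^ 3 = Z ^ 300 := by rw [← pow_mul]
  rw [bb]
  omega

theorem bb_lt_HH {W c Z : ℕ} (hZ : 2 ≤ Z) {q : ℕ × ℕ × ℕ × ℕ} (hq : q ∈ Box W c Z) :
    bb q < HH q := by
  obtain ⟨h1, h2, h3, h4, -⟩ := mem_box hq
  rw [mem_cls] at h1 h2 h3 h4
  have a1 : 3 ≤ q.1 := by omega
  have a2 : 3 ≤ q.2.1 := by
    have : 2 ≤ Z ^ 10 := hZ.trans (Nat.le_self_pow (by norm_num) Z)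
    omega
  have a3 : 3 ≤ q.2.2.1 := by
    have : 2 ≤ Z ^ 100 := hZ.trans (Nat.le_self_pow (by norm_num) Z)
    omega
  have a4 : 3 ≤ q.2.2.2 := by omega
  rw [bb, HH]
  have b1 : q.1 + q.2.1 ≤ q.1 * q.2.1 := by nlinarith
  have b2 : q.1 * q.2.1 + q.2.2.1 ≤ q.1 * q.2.1 * q.2.2.1 := by nlinarith
  have b3 : 0 < q.1 * q.2.1 * q.2.2.1 := by positivity
  nlinarith

theorem bb_modEq {W c Z : ℕ} {q : ℕ × ℕ × ℕ × ℕ} (hq : q ∈ Box W c Z) :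
    bb q ≡ c [MOD primorial W] := by
  obtain ⟨h1, h2, h3, h4, -⟩ := mem_box hq
  have e := ((mem_cls.1 h1).2.add (mem_cls.1 h2).2).add (mem_cls.1 h3).2
  have hp := primorial_pos W
  have e2 : c + c + (primorial W - 1) * c = c + primorial W * c := by
    obtain ⟨Q, hQ⟩ : ∃ Q, primorial W = Q + 1 := ⟨primorial W - 1, by omega⟩
    rw [hQ, Nat.add_sub_cancel]; ring
  rw [e2] at e
  exact e.trans (by simp [Nat.ModEq])

theorem dl_nonneg (l : ℕ) : 0 ≤ dl l := by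
  rw [dl]; split_ifs <;> norm_num

theorem dl_le (l : ℕ) : dl l ≤ 1 / 2 := by
  rw [dl]; split_ifs <;> norm_num

theorem ws_nonneg (n : ℕ) : 0 ≤ ws n := prod_nonneg fun _ _ => pow_nonneg (dl_nonneg _) _

theorem ws_le_one (n : ℕ) : ws n ≤ 1 :=
  prod_le_one (fun _ _ => pow_nonneg (dl_nonneg _) _) fun l _ =>
    pow_le_one₀ (dl_nonneg _) ((dl_le l).trans (by norm_num))

theorem fw_nonneg (n : ℕ) : 0 ≤ fw n := div_nonneg (ws_nonneg n) (Nat.cast_nonneg _)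

theorem mass_nonneg (W c Z : ℕ) : 0 ≤ mass W c Z :=
  sum_nonneg fun q _ => div_nonneg (ws_nonneg _) (Nat.cast_nonneg _)

theorem VV_le_one (W z : ℕ) : VV W z ≤ 1 := by
  refine prod_le_one (fun l hl => ?_) fun l hl => ?_
  · have h1 : l.Prime := (mem_filter.1 hl).2
    have h2 : (1 : ℝ) / l ≤ 1 := by
      rw [div_le_one (by exact_mod_cast h1.pos)]
      exact_mod_cast h1.one_lt.le
    linarith
  · have : (0 : ℝ) ≤ 1 / l := by positivity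
    linarith

end Pool.Agent.Lib.MP_ba0fa5_ag.AA.H75
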