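import Pool.Agent.Lib.MP_ba0fa5_ag.AA.H75.Boxl

/-!
# Module CORE: Cauchy-Schwarz and the choice of the parameters
-/

set_option autoImplicit false

namespace Pool.Agent.Lib.MP_ba0fa5_ag.AA.H75

open scoped Classical
open Finset

theorem two_dvd_primorial {W : ℕ} (hW : 3 ≤ W) : 2 ∣ primorial W := by
  have h : primorial 2 ∣ primorial W := primorial_dvd_primorial (by omega)
  simpa using h

theorem repA_of_Tsum {W c Z J X N₀ a N : ℕ} (hW : 3 ≤ W) (hZ : 1 ≤ Z) (hX : 3 * Z ^ 300 ≤ X)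
    (hN : N ∈ NN W X N₀) (hNc : (N₀ + c).Coprime (primorial W))
    (hT : Tsum W c Z J a N ≠ 0) : RepA (2 * X) a N := by
  have h1 : ((Box W c Z).filter (fun q => Rp Z J q N ∧ Gd a (N + bb q))).Nonempty := by
    by_contra h
    rw [not_nonempty_iff_eq_empty] at h
    exact hT (by rw [Tsum, h, sum_empty])
  obtain ⟨q, hq⟩ := h1
  rw [mem_filter] at hq
  obtain ⟨hq, ⟨hd, -⟩, hG⟩ := hq
  obtain ⟨-, -, -, -, c1, c2, c3, c4, c5, c6⟩ := mem_box hq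
  rw [NN, mem_filter, mem_Icc] at hN
  have hb := bb_le hZ hq
  refine ⟨q.1, q.2.1, q.2.2.1, N + bb q, c1, c2, c4, ?_, ?_, by omega, hG, ?_⟩
  · exact (Dvd.intro q.2.2.2 rfl).trans hd
  · have e1 : N + bb q ≡ N₀ + c [MOD primorial W] := hN.2.add (bb_modEq hq)
    have e2 : (N + bb q).Coprime (primorial W) := by
      rw [Nat.Coprime, e1.gcd_eq]; exact hNc
    have e3 : (N + bb q).Coprime 2 := Nat.Coprime.coprime_dvd_right (two_dvd_primorial hW) e2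
    rw [Nat.coprime_comm, Nat.coprime_two_left] at e3
    exact e3
  · rw [bb]; ring

theorem Tsum_nonneg (W c Z J a N : ℕ) : 0 ≤ Tsum W c Z J a N := by
  refine sum_nonneg fun q _ => div_nonneg (ws_nonneg _) ?_
  refine prod_nonneg fun l _ => ?_
  rw [delta]; positivity

/-- choice of `Z` -/
theorem exists_Z (B Z₀ : ℕ) (hB : 1 ≤ B) (hZ₀ : 2 ^ B + 3 ≤ Z₀) (X : ℕ) (hX : zz Z₀ ^ B ≤ X) :
    ∃ Z : ℕ, Z₀ ≤ Z ∧ zz Z ^ B ≤ X ∧ 2 * X ≤ zz Z ^ (B + 2) := by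
  have hpB : 1 ≤ 2 ^ B := Nat.one_le_two_pow
  have hself : ∀ Z : ℕ, Z ≤ zz Z ^ B := fun Z => by
    have h1 : Z ≤ zz Z := Nat.le_self_pow (by norm_num) Z
    exact h1.trans (Nat.le_self_pow (by omega) _)
  obtain ⟨Z, hZ⟩ : ∃ Z, Z = Nat.findGreatest (fun Z => zz Z ^ B ≤ X) X := ⟨_, rfl⟩
  have h1 : Z₀ ≤ Z := by
    rw [hZ]; exact Nat.le_findGreatest ((hself Z₀).trans hX) hX
  have h2 : zz Z ^ B ≤ X := by
    rw [hZ]
    exact Nat.findGreatest_spec (P := fun Z => zz Z ^ B ≤ X) ((hself Z₀).trans hX) hX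
  refine ⟨Z, h1, h2, ?_⟩
  have h3 : X < zz (Z + 1) ^ B := by
    by_contra h
    push Not at h
    have h4 : Z + 1 ≤ X := by
      exact (hself (Z + 1)).trans h
    have h5 : Z < Z + 1 := Nat.lt_succ_self Z
    rw [hZ] at h5
    exact Nat.findGreatest_is_greatest (P := fun Z => zz Z ^ B ≤ X) h5 (by rw [← hZ]; exact h4)
      (by rw [← hZ]; exact h)
  have h4 : zz (Z + 1) ≤ 2 ^ 301 * zz Z := by
    rw [zz, zz, ← mul_pow]
    exact Nat.pow_le_pow_left (by omega) _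
  have h5 : 2 ^ (301 * B + 1) ≤ zz Z ^ 2 := by
    have h6 : (2 ^ B) ^ 301 ≤ zz Z := by
      rw [zz]; exact Nat.pow_le_pow_left (by omega) _
    have h7 : 2 ≤ zz Z := by
      have : 2 ≤ Z := by omega
      exact this.trans (Nat.le_self_pow (by norm_num) Z)
    calc 2 ^ (301 * B + 1) = (2 ^ B) ^ 301 * 2 := by rw [pow_succ, ← pow_mul, mul_comm 301 B]
      _ ≤ zz Z * zz Z := Nat.mul_le_mul h6 h7
      _ = zz Z ^ 2 := by ring
  calc 2 * X ≤ 2 * zz (Z + 1) ^ B := Nat.mul_le_mul_left _ h3.le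
    _ ≤ 2 * (2 ^ 301 * zz Z) ^ B := Nat.mul_le_mul_left _ (Nat.pow_le_pow_left h4 _)
    _ = 2 ^ (301 * B + 1) * zz Z ^ B := by rw [mul_pow, ← pow_mul, pow_succ]; ring
    _ ≤ zz Z ^ 2 * zz Z ^ B := Nat.mul_le_mul_right _ h5
    _ = zz Z ^ (B + 2) := by rw [← pow_add, add_comm]

theorem core (hF : FirstStmt) (hC : CoprStmt) (hS : SecondStmt) (hZr : ZeroStmt)
    (hM : MasslowStmt) (h1 : Prob1Stmt) (h2 : Prob2Stmt) : CoreStmt := by
  intro η hη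
  obtain ⟨C₁, hC₁, hC⟩ := hC
  obtain ⟨C₂, hC₂, hS⟩ := hS
  obtain ⟨δ, hδ, hδη, hδ1⟩ : ∃ δ : ℝ, 0 < δ ∧ 20 * δ ≤ η ∧ δ ≤ 1 / 20 :=
    ⟨min (η / 20) (1 / 20), lt_min (by positivity) (by norm_num), by
      have := min_le_left (η / 20) (1 / 20); linarith, min_le_right _ _⟩
  -- choice of `W`
  obtain ⟨W, hW3, hW1, hW2⟩ : ∃ W : ℕ, 3 ≤ W ∧ C₁ * (W : ℝ) ^ (-(1 / 4) : ℝ) ≤ δ ∧
      C₂ * (W : ℝ) ^ (-(1 / 4) : ℝ) ≤ δ := by
    obtain ⟨n, hn⟩ := exists_nat_ge (((C₁ + C₂) / δ) ^ 4)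
    have hn3 : (0 : ℝ) < ((n + 3 : ℕ) : ℝ) := by positivity
    have key : (C₁ + C₂) * ((n + 3 : ℕ) : ℝ) ^ (-(1 / 4) : ℝ) ≤ δ := by
      have e1 : ((C₁ + C₂) / δ) ≤ ((n + 3 : ℕ) : ℝ) ^ (1 / 4 : ℝ) := by
        have e2 : (((C₁ + C₂) / δ) ^ 4) ^ (1 / 4 : ℝ) ≤ ((n + 3 : ℕ) : ℝ) ^ (1 / 4 : ℝ) := by
          refine Real.rpow_le_rpow (by positivity) ?_ (by norm_num)
          push_cast
          linarith
        have e3 : (((C₁ + C₂) / δ) ^ 4) ^ (1 / 4 : ℝ) = (C₁ + C₂) / δ := by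
          rw [← Real.rpow_natCast, ← Real.rpow_mul (by positivity)]
          norm_num
        rwa [e3] at e2
      rw [Real.rpow_neg hn3.le]
      have e4 : 0 < ((n + 3 : ℕ) : ℝ) ^ (1 / 4 : ℝ) := by positivity
      rw [← div_eq_mul_inv, div_le_iff₀ e4]
      rw [div_le_iff₀ hδ] at e1
      linarith
    refine ⟨n + 3, by omega, ?_, ?_⟩
    · refine le_trans ?_ key
      gcongr
      linarith
    · refine le_trans ?_ key
      gcongr
      linarith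
  refine ⟨W, hW3, ?_⟩
  obtain ⟨B₁, hF⟩ := hF δ hδ
  obtain ⟨B₂, hS⟩ := hS δ hδ
  obtain ⟨B₃, hZr⟩ := hZr
  obtain ⟨B, hB⟩ : ∃ B, B = B₁ + B₂ + B₃ + 1 := ⟨_, rfl⟩
  obtain ⟨J, hJ2, hF⟩ := hF (B + 2)
  obtain ⟨Z₁, hF⟩ := hF W hW3
  obtain ⟨Z₂, hS⟩ := hS W hW3
  obtain ⟨Z₃, hZr⟩ := hZr W hW3
  obtain ⟨Z₄, hC⟩ := hC W hW3
  obtain ⟨K, hK⟩ : ∃ K : ℝ, K = 2 ^ (J * (B + 2)) := ⟨_, rfl⟩
  have hK0 : 0 < K := by rw [hK]; positivity
  obtain ⟨Z₅, hM⟩ := hM W hW3 (4 * K / δ + 1)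
  have hQpos := primorial_pos W
  have hQR : (0 : ℝ) < (primorial W : ℝ) := by exact_mod_cast hQpos
  obtain ⟨n₂, hn₂⟩ := exists_nat_ge ((primorial W * K / δ) ^ 2)
  obtain ⟨Z₀, hZ₀⟩ : ∃ Z₀, Z₀ = Z₁ + Z₂ + Z₃ + Z₄ + Z₅ + n₂ + 2 ^ B + 4 := ⟨_, rfl⟩
  refine ⟨zz Z₀ ^ B, ?_⟩
  intro X N₀ c hX hc hNc
  have hpB : 1 ≤ 2 ^ B := Nat.one_le_two_pow
  obtain ⟨Z, hZ, hX1, hX2⟩ := exists_Z B Z₀ (by omega) (by omega) X hX
  have hZ4 : 4 ≤ Z := by omega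
  have hzpos : 0 < zz Z := by rw [zz]; positivity
  have hle : ∀ b : ℕ, b ≤ B → zz Z ^ b ≤ X := fun b hb =>
    (Nat.pow_le_pow_right hzpos hb).trans hX1
  have hXA : X ≤ zz Z ^ (B + 2) := by omega
  have hX3 : 3 * Z ^ 300 ≤ X := by
    have e1 : 3 * Z ^ 300 ≤ zz Z := by
      have e : zz Z = Z * Z ^ 300 := by rw [zz]; ring
      rw [e]
      exact Nat.mul_le_mul_right _ (by omega)
    exact e1.trans (by simpa using hle 1 (by omega))
  -- notation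
  obtain ⟨V, hV⟩ : ∃ V, V = VV W (zz Z) := ⟨_, rfl⟩
  obtain ⟨m, hm⟩ : ∃ m, m = mass W c Z := ⟨_, rfl⟩
  obtain ⟨μ, hμ⟩ : ∃ μ, μ = V * m := ⟨_, rfl⟩
  obtain ⟨x, hx⟩ : ∃ x : ℝ, x = (X : ℝ) / (primorial W : ℝ) := ⟨_, rfl⟩
  obtain ⟨O, hO⟩ : ∃ O : ℝ, O = ((Om (2 * X)).card : ℝ) := ⟨_, rfl⟩
  have hV0 : 0 < V := by rw [hV]; exact VV_pos _ _
  have hV1 : V ≤ 1 := by rw [hV]; exact VV_le_one _ _
  have hm0 : 0 ≤ m := by rw [hm]; exact mass_nonneg _ _ _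
  have hμR : 4 * K / δ + 1 ≤ μ := by
    rw [hμ, hV, hm]; exact hM Z c (by omega) hc
  have hμ1 : 1 ≤ μ := le_trans (by have : 0 ≤ 4 * K / δ := by positivity
                                   linarith) hμR
  have hXpos : (0 : ℝ) < X := by
    have : 0 < X := lt_of_lt_of_le (by positivity) hX3
    exact_mod_cast this
  have hx0 : 0 < x := by rw [hx]; positivity
  have hO0 : 0 ≤ O := by rw [hO]; positivity
  -- first moment
  obtain ⟨S, hSdef⟩ : ∃ S, S = NN W X N₀ ×ˢ Om (2 * X) := ⟨_, rfl⟩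
  obtain ⟨T, hT⟩ : ∃ T : ℕ × ℕ → ℝ, T = fun s => Tsum W c Z J s.2 s.1 := ⟨_, rfl⟩
  have hfirst : O * ((1 - δ) ^ 2 * x * μ) ≤ ∑ s ∈ S, T s := by
    have e1 := h1 W c Z J X N₀ hW3 (by omega) hX3 hc hNc
    rw [hT, hSdef, e1, ← hO]
    refine mul_le_mul_of_nonneg_left ?_ hO0
    have e2 : ∀ q ∈ Box W c Z, ws (HH q) * ((1 - δ) * ((X : ℝ) / ((primorial W : ℝ) * HH q)) *
        VV W (zz Z)) ≤ ws (HH q) * (((NN W X N₀).filter (Rp Z J q)).card : ℝ) := by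
      intro q hq
      exact mul_le_mul_of_nonneg_left
        (hF Z X N₀ c (by omega) (hle B₁ (by omega)) hXA hc hNc q hq) (ws_nonneg _)
    refine le_trans ?_ (sum_le_sum e2)
    have e3 : ∑ q ∈ Box W c Z, ws (HH q) * ((1 - δ) * ((X : ℝ) / ((primorial W : ℝ) * HH q)) *
        VV W (zz Z)) = (1 - δ) * x * V * ∑ q ∈ Box W c Z, ws (HH q) / HH q := by
      rw [mul_sum, hx, hV]
      refine sum_congr rfl fun q hq => ?_
      have : (0 : ℝ) < HH q := by exact_mod_cast HH_pos hq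
      field_simp
    rw [e3]
    have e4 := hC Z c (by omega) hc
    have e5 : (1 - δ) * m ≤ ∑ q ∈ Box W c Z, ws (HH q) / HH q := by
      refine le_trans ?_ e4
      rw [← hm]
      refine mul_le_mul_of_nonneg_right ?_ hm0
      linarith
    calc (1 - δ) ^ 2 * x * μ = (1 - δ) * x * V * ((1 - δ) * m) := by rw [hμ]; ring
      _ ≤ (1 - δ) * x * V * ∑ q ∈ Box W c Z, ws (HH q) / HH q := by
          refine mul_le_mul_of_nonneg_left e5 ?_
          have : 0 ≤ 1 - δ := by linarith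
          positivity
  -- second moment
  have hsecond : ∑ s ∈ S, T s ^ 2 ≤ O * (x * μ ^ 2 * (1 + 5 * δ)) := by
    have e1 := h2 W c Z J X N₀ (B + 2) hW3 hZ4 hJ2 hX3 hX2 hc hNc
    rw [hT, hSdef]
    refine e1.trans ?_
    rw [← hO]
    refine mul_le_mul_of_nonneg_left ?_ hO0
    have e2 := hS Z X N₀ c (by omega) (hle B₂ (by omega)) hc
    have e3 := hZr Z X N₀ c (by omega) (hle B₃ (by omega)) hc
    rw [← hV, ← hm, ← hμ, ← hx] at e2 e3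
    rw [← hK]
    have e4 : (1 + δ) * (1 + C₂ * (W : ℝ) ^ (-(1 / 4) : ℝ)) * x * μ ^ 2 ≤
        (1 + δ) * (1 + δ) * x * μ ^ 2 := by
      gcongr
    have e5 : K * (4 * x * μ + X / Real.sqrt Z) ≤ 2 * δ * (x * μ ^ 2) := by
      have f1 : K * (4 * x * μ) ≤ δ * (x * μ ^ 2) := by
        have g1 : 4 * K ≤ δ * μ := by
          have g2 : 4 * K / δ ≤ μ := by linarith
          rw [div_le_iff₀ hδ] at g2
          linarith
        calc K * (4 * x * μ) = 4 * K * (x * μ) := by ring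
          _ ≤ δ * μ * (x * μ) := by
              refine mul_le_mul_of_nonneg_right g1 (by positivity)
          _ = δ * (x * μ ^ 2) := by ring
      have f2 : K * (X / Real.sqrt Z) ≤ δ * (x * μ ^ 2) := by
        have hZR : (0 : ℝ) < Z := by exact_mod_cast (by omega : 0 < Z)
        have g1 : primorial W * K / δ ≤ Real.sqrt Z := by
          apply Real.le_sqrt_of_sq_le
          refine hn₂.trans ?_
          exact_mod_cast (by omega : n₂ ≤ Z)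
        have g2 : 0 < Real.sqrt Z := Real.sqrt_pos.2 hZR
        rw [div_le_iff₀ hδ] at g1
        have g3 : K * (X / Real.sqrt Z) ≤ δ * x := by
          rw [hx, mul_div_assoc', mul_div_assoc', div_le_div_iff₀ g2 hQR]
          nlinarith
        have g4 : δ * x ≤ δ * (x * μ ^ 2) := by
          have : x ≤ x * μ ^ 2 := by
            have : 1 ≤ μ ^ 2 := one_le_pow₀ hμ1
            nlinarith
          exact mul_le_mul_of_nonneg_left this hδ.le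
        exact g3.trans g4
      calc K * (4 * x * μ + X / Real.sqrt Z) = K * (4 * x * μ) + K * (X / Real.sqrt Z) := by ring
        _ ≤ δ * (x * μ ^ 2) + δ * (x * μ ^ 2) := add_le_add f1 f2
        _ = _ := by ring
    have e6 := mul_le_mul_of_nonneg_left e3 hK0.le
    have e7 : 0 ≤ x * μ ^ 2 := by positivity
    calc _ ≤ (1 + δ) * (1 + C₂ * (W : ℝ) ^ (-(1 / 4) : ℝ)) * x * μ ^ 2 +
          K * (4 * x * μ + X / Real.sqrt Z) := add_le_add e2 e6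
      _ ≤ (1 + δ) * (1 + δ) * x * μ ^ 2 + 2 * δ * (x * μ ^ 2) := add_le_add e4 e5
      _ = x * μ ^ 2 * ((1 + δ) * (1 + δ) + 2 * δ) := by ring
      _ ≤ x * μ ^ 2 * (1 + 5 * δ) := by
          refine mul_le_mul_of_nonneg_left ?_ e7
          nlinarith
  -- Cauchy-Schwarz
  have hCS : (∑ s ∈ S, T s) ^ 2 ≤ ((S.filter (fun s => T s ≠ 0)).card : ℝ) * ∑ s ∈ S, T s ^ 2 := by
    have e1 : ∑ s ∈ S, T s = ∑ s ∈ S.filter (fun s => T s ≠ 0), T s := by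
      rw [sum_filter_ne_zero]
    have e2 : ∑ s ∈ S.filter (fun s => T s ≠ 0), T s ^ 2 ≤ ∑ s ∈ S, T s ^ 2 :=
      sum_le_sum_of_subset_of_nonneg (filter_subset _ _) fun s _ _ => sq_nonneg _
    rw [e1]
    refine (sq_sum_le_card_mul_sum_sq (s := S.filter (fun s => T s ≠ 0)) (f := T)).trans ?_
    exact mul_le_mul_of_nonneg_left e2 (Nat.cast_nonneg _)
  have hsub : (S.filter (fun s => T s ≠ 0)).card ≤
      (S.filter (fun s => RepA (2 * X) s.2 s.1)).card := by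
    refine card_le_card fun s hs => ?_
    rw [mem_filter] at hs ⊢
    refine ⟨hs.1, ?_⟩
    have hs1 := hs.1
    rw [hSdef, mem_product] at hs1
    have hs2 := hs.2
    rw [hT] at hs2
    exact repA_of_Tsum hW3 (by omega) hX3 hs1.1 hNc hs2
  have hsubR : ((S.filter (fun s => T s ≠ 0)).card : ℝ) ≤
      ((S.filter (fun s => RepA (2 * X) s.2 s.1)).card : ℝ) := by exact_mod_cast hsub
  rw [← hSdef, ← hx, ← hO]
  refine le_trans ?_ hsubR
  obtain ⟨D, hD⟩ : ∃ D : ℝ, D = ((S.filter (fun s => T s ≠ 0)).card : ℝ) := ⟨_, rfl⟩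
  rw [← hD] at hCS ⊢
  have hD0 : 0 ≤ D := by rw [hD]; positivity
  rcases hO0.eq_or_lt with hOz | hOp
  · rw [← hOz, mul_zero]; exact hD0
  have h1δ : 0 ≤ 1 - δ := by linarith
  have hF0 : 0 ≤ O * ((1 - δ) ^ 2 * x * μ) := by positivity
  have k1 : (O * ((1 - δ) ^ 2 * x * μ)) ^ 2 ≤ D * (O * (x * μ ^ 2 * (1 + 5 * δ))) :=
    (pow_le_pow_left₀ hF0 hfirst 2).trans (hCS.trans (mul_le_mul_of_nonneg_left hsecond hD0))
  have hP : 0 < O * x * μ ^ 2 := by positivity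
  have k2 : (O * x * (1 - δ) ^ 4) * (O * x * μ ^ 2) ≤ (D * (1 + 5 * δ)) * (O * x * μ ^ 2) := by
    calc (O * x * (1 - δ) ^ 4) * (O * x * μ ^ 2) = (O * ((1 - δ) ^ 2 * x * μ)) ^ 2 := by ring
      _ ≤ D * (O * (x * μ ^ 2 * (1 + 5 * δ))) := k1
      _ = (D * (1 + 5 * δ)) * (O * x * μ ^ 2) := by ring
  have k3 : O * x * (1 - δ) ^ 4 ≤ D * (1 + 5 * δ) := le_of_mul_le_mul_right k2 hP
  have k4 : 1 - 4 * δ ≤ (1 - δ) ^ 4 := by
    nlinarith [sq_nonneg δ, mul_nonneg (sq_nonneg δ) h1δ, sq_nonneg (1 - δ), sq_nonneg ((1 - δ) ^ 2 - 1)]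
  have hOx : 0 < O * x := by positivity
  have k5 : (1 - η) * (1 + 5 * δ) ≤ 1 - 4 * δ := by
    nlinarith
  have k6 : ((1 - η) * x * O) * (1 + 5 * δ) ≤ D * (1 + 5 * δ) := by
    calc ((1 - η) * x * O) * (1 + 5 * δ) = O * x * ((1 - η) * (1 + 5 * δ)) := by ring
      _ ≤ O * x * (1 - 4 * δ) := mul_le_mul_of_nonneg_left k5 hOx.le
      _ ≤ O * x * (1 - δ) ^ 4 := mul_le_mul_of_nonneg_left k4 hOx.le
      _ ≤ D * (1 + 5 * δ) := k3
  exact le_of_mul_le_mul_right k6 (by linarith)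

end Pool.Agent.Lib.MP_ba0fa5_ag.AA.H75
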