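import Pool.Agent.Lib.MP_ba0fa5_ag.AA.IfaceA

/-!
# Module PAIR: two linear forms without small prime factors
-/

set_option autoImplicit false

namespace Pool.Agent.Lib.MP_ba0fa5_ag.AA.H75

open scoped Classical
open Finset

theorem one_class (l m y : ℕ) (hl : l.Prime) (hm : ¬ l ∣ m) :
    ∃ r < l, ∀ j : ℕ, l ∣ y + m * j ↔ j % l = r := by
  have : Fact l.Prime := ⟨hl⟩
  have hm0 : (m : ZMod l) ≠ 0 := by
    rwa [Ne, ZMod.natCast_eq_zero_iff]
  refine ⟨(-(y : ZMod l) / m).val, ZMod.val_lt _, fun j => ?_⟩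
  rw [← ZMod.natCast_eq_zero_iff, ← ZMod.val_natCast, ZMod.val_injective l |>.eq_iff]
  push_cast
  constructor
  · intro h
    rw [eq_div_iff hm0]
    linear_combination h
  · intro h
    rw [h]
    field_simp
    ring

theorem not_dvd_primorial {W l : ℕ} (hl : l.Prime) (h : W < l) : ¬ l ∣ primorial W := by
  intro hd
  have h1 : l ∈ (primorial W).primeFactors :=
    Nat.mem_primeFactors.2 ⟨hl, hd, primorial_ne_zero W⟩
  rw [primeFactors_primorial, Nat.mem_primesLE] at h1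
  omega

/-- the classes to be sifted for one prime -/
theorem classes (l m m' y y' H H' L N b b' : ℕ) (hl : l.Prime)
    (h1 : N + b = H * y) (h2 : N + b' = H' * y') (h3 : L = H * m) (h4 : L = H' * m')
    (hmm : ¬ l ∣ m ∨ ¬ l ∣ m') (hL : ¬ l ∣ H → ¬ l ∣ H' → ¬ l ∣ L) :
    ∃ Ω : Finset ℕ, (∀ r ∈ Ω, r < l) ∧ 1 ≤ Ω.card ∧ Ω.card ≤ 2 ∧
      (¬ l ∣ H → ¬ l ∣ H' → ¬ (l : ℤ) ∣ (b : ℤ) - b' → Ω.card = 2) ∧
      ∀ j : ℕ, ¬ l ∣ y + m * j → ¬ l ∣ y' + m' * j → j % l ∉ Ω := by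
  by_cases hc : ¬ l ∣ H ∧ ¬ l ∣ H' ∧ ¬ (l : ℤ) ∣ (b : ℤ) - b'
  · obtain ⟨c1, c2, c3⟩ := hc
    have hLl := hL c1 c2
    have hm : ¬ l ∣ m := fun h => hLl (h3 ▸ h.mul_left H)
    have hm' : ¬ l ∣ m' := fun h => hLl (h4 ▸ h.mul_left H')
    obtain ⟨r, hr, hr'⟩ := one_class l m y hl hm
    obtain ⟨s, hs, hs'⟩ := one_class l m' y' hl hm'
    have hne : r ≠ s := by
      intro h
      subst h
      have e1 := (hr' r).2 (Nat.mod_eq_of_lt hr)
      have e2 := (hs' r).2 (Nat.mod_eq_of_lt hr)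
      apply c3
      have e3 : (l : ℤ) ∣ (N : ℤ) + b + L * r := by
        have : (l : ℤ) ∣ ((H * (y + m * r) : ℕ) : ℤ) := by
          exact_mod_cast e1.mul_left H
        have e : ((H * (y + m * r) : ℕ) : ℤ) = (N : ℤ) + b + L * r := by
          have h1' : (N : ℤ) + b = H * y := by exact_mod_cast h1
          have h3' : (L : ℤ) = H * m := by exact_mod_cast h3
          push_cast
          rw [h1', h3']
          ring
        rwa [e] at this
      have e4 : (l : ℤ) ∣ (N : ℤ) + b' + L * r := by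
        have : (l : ℤ) ∣ ((H' * (y' + m' * r) : ℕ) : ℤ) := by
          exact_mod_cast e2.mul_left H'
        have e : ((H' * (y' + m' * r) : ℕ) : ℤ) = (N : ℤ) + b' + L * r := by
          have h1' : (N : ℤ) + b' = H' * y' := by exact_mod_cast h2
          have h3' : (L : ℤ) = H' * m' := by exact_mod_cast h4
          push_cast
          rw [h1', h3']
          ring
        rwa [e] at this
      have e5 := dvd_sub e3 e4
      have e6 : (N : ℤ) + b + L * r - (N + b' + L * r) = (b : ℤ) - b' := by ring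
      rwa [e6] at e5
    refine ⟨{r, s}, ?_, ?_, ?_, ?_, ?_⟩
    · intro t ht
      rw [mem_insert, mem_singleton] at ht
      rcases ht with rfl | rfl <;> assumption
    · rw [card_pair hne]; norm_num
    · rw [card_pair hne]
    · intro _ _ _
      rw [card_pair hne]
    · intro j h1 h2 hj
      rw [mem_insert, mem_singleton] at hj
      rcases hj with h | h
      · exact h1 ((hr' j).2 h)
      · exact h2 ((hs' j).2 h)
  · have key : ∃ r < l, ∀ j : ℕ, ¬ l ∣ y + m * j → ¬ l ∣ y' + m' * j → j % l ≠ r := by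
      rcases hmm with h | h
      · obtain ⟨r, hr, hr'⟩ := one_class l m y hl h
        exact ⟨r, hr, fun j h1 _ h3 => h1 ((hr' j).2 h3)⟩
      · obtain ⟨r, hr, hr'⟩ := one_class l m' y' hl h
        exact ⟨r, hr, fun j _ h2 h3 => h2 ((hr' j).2 h3)⟩
    obtain ⟨r, hr, hr'⟩ := key
    refine ⟨{r}, ?_, ?_, ?_, ?_, ?_⟩
    · intro t ht
      rw [mem_singleton] at ht
      rwa [ht]
    · simp
    · simp
    · intro a1 a2 a3
      exact absurd ⟨a1, a2, a3⟩ hc
    · intro j h1 h2 hj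
      rw [mem_singleton] at hj
      exact hr' j h1 h2 hj

theorem prod_union_le {A B : Finset ℕ} (f : ℕ → ℝ) (hf : ∀ n ∈ A ∪ B, 1 ≤ f n) :
    ∏ n ∈ A ∪ B, f n ≤ (∏ n ∈ A, f n) * ∏ n ∈ B, f n := by
  have h := prod_union_inter (s₁ := A) (s₂ := B) (f := f)
  rw [← h]
  have h1 : 1 ≤ ∏ n ∈ A ∩ B, f n := by
    rw [← prod_const_one (s := A ∩ B)]
    exact prod_le_prod (fun _ _ => zero_le_one) fun n hn =>
      hf n (mem_union_left _ (mem_inter.1 hn).1)
  have h2 : 0 ≤ ∏ n ∈ A ∪ B, f n := prod_nonneg fun n hn => zero_le_one.trans (hf n hn)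
  nlinarith

theorem Ph_nonneg (W z n : ℕ) : 0 ≤ Ph W z n := by
  refine prod_nonneg fun l hl => inv_nonneg.2 ?_
  have h1 : l.Prime := Nat.prime_of_mem_primeFactors (mem_filter.1 hl).1
  have h2 : (1 : ℝ) / l ≤ 1 := by
    rw [div_le_one (by exact_mod_cast h1.pos)]
    exact_mod_cast h1.one_lt.le
  linarith

theorem VV_pos (W z : ℕ) : 0 < VV W z := by
  refine prod_pos fun l hl => ?_
  have h1 : l.Prime := (mem_filter.1 hl).2
  have h2 : (1 : ℝ) / l < 1 := by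
    rw [div_lt_one (by exact_mod_cast h1.pos)]
    exact_mod_cast h1.one_lt
  linarith

/-- the product of the local densities -/
theorem prod_local (W z H H' D : ℕ) (hH : H ≠ 0) (hH' : H' ≠ 0) (hD : D ≠ 0) (Ω : ℕ → Finset ℕ)
    (h1 : ∀ l ∈ primesIn W z, 1 ≤ (Ω l).card ∧ (Ω l).card ≤ 2)
    (h5 : ∀ l ∈ primesIn W z, 5 ≤ l)
    (h2 : ∀ l ∈ primesIn W z, ¬ l ∣ H → ¬ l ∣ H' → ¬ l ∣ D → (Ω l).card = 2) :
    ∏ l ∈ primesIn W z, (1 - ((Ω l).card : ℝ) / l) ≤
      VV W z ^ 2 * (Ph W z H * Ph W z H' * Ph W z D) := by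
  obtain ⟨f, hf⟩ : ∃ f : ℕ → ℝ, f = fun l : ℕ => (1 - 1 / (l : ℝ))⁻¹ := ⟨_, rfl⟩
  have hP : ∀ l ∈ primesIn W z, l.Prime := fun l hl => (mem_filter.1 hl).2
  have hl0 : ∀ l ∈ primesIn W z, (0 : ℝ) < 1 - 1 / l ∧ (1 : ℝ) / l ≤ 1 / 5 ∧ (0 : ℝ) < 1 / l := by
    intro l hl
    have h5' : (5 : ℝ) ≤ l := by exact_mod_cast h5 l hl
    have e : (1 : ℝ) / l ≤ 1 / 5 := one_div_le_one_div_of_le (by norm_num) h5'
    exact ⟨by linarith, e, by positivity⟩
  -- the set of special primes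
  obtain ⟨A, hA⟩ : ∃ A : Finset ℕ, A = (primesIn W z).filter (fun l => l ∣ H ∨ l ∣ H' ∨ l ∣ D) :=
    ⟨_, rfl⟩
  have step1 : ∏ l ∈ primesIn W z, (1 - ((Ω l).card : ℝ) / l) ≤
      ∏ l ∈ primesIn W z, ((1 - 1 / (l : ℝ)) ^ 2 * if l ∈ A then f l else 1) := by
    refine prod_le_prod (fun l hl => ?_) fun l hl => ?_
    · obtain ⟨a1, a2, a3⟩ := hl0 l hl
      have a4 : ((Ω l).card : ℝ) ≤ 2 := by exact_mod_cast (h1 l hl).2
      have a5 : ((Ω l).card : ℝ) / l = (Ω l).card * (1 / l) := by ring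
      rw [a5]
      nlinarith
    · obtain ⟨a1, a2, a3⟩ := hl0 l hl
      by_cases hlA : l ∈ A
      · rw [if_pos hlA, hf]
        have e1 : (1 : ℝ) ≤ (Ω l).card := by exact_mod_cast (h1 l hl).1
        have e2 : (1 - 1 / (l : ℝ)) ^ 2 * (1 - 1 / (l : ℝ))⁻¹ = 1 - 1 / l := by
          rw [pow_two, mul_assoc, mul_inv_cancel₀ a1.ne', mul_one]
        simp only [e2]
        have a5 : ((Ω l).card : ℝ) / l = (Ω l).card * (1 / l) := by ring
        rw [a5]
        nlinarith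
      · rw [if_neg hlA, mul_one]
        have h3 : ¬ (l ∣ H ∨ l ∣ H' ∨ l ∣ D) := fun h => hlA (by rw [hA]; exact mem_filter.2 ⟨hl, h⟩)
        have e1 := h2 l hl (fun h => h3 (Or.inl h)) (fun h => h3 (Or.inr (Or.inl h)))
          (fun h => h3 (Or.inr (Or.inr h)))
        rw [e1]
        push_cast
        have e3 : (2 : ℝ) / l = 2 * (1 / l) := by ring
        rw [e3]
        nlinarith [sq_nonneg ((1 : ℝ) / l)]
  refine step1.trans ?_
  rw [prod_mul_distrib, prod_pow]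
  refine mul_le_mul_of_nonneg_left ?_ (sq_nonneg _)
  rw [prod_ite_mem]
  have hAsub : primesIn W z ∩ A = A := by
    rw [hA]; exact inter_eq_right.2 (filter_subset _ _)
  rw [hAsub]
  have hA1 : A = (H.primeFactors.filter (fun l => W < l ∧ l ≤ z) ∪
      H'.primeFactors.filter (fun l => W < l ∧ l ≤ z)) ∪
      D.primeFactors.filter (fun l => W < l ∧ l ≤ z) := by
    ext l
    rw [hA]
    simp only [mem_filter, mem_union, primesIn, mem_Ioc, Nat.mem_primeFactors]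
    constructor
    · rintro ⟨⟨⟨a, b⟩, c⟩, d | d | d⟩
      · exact Or.inl (Or.inl ⟨⟨c, d, hH⟩, a, b⟩)
      · exact Or.inl (Or.inr ⟨⟨c, d, hH'⟩, a, b⟩)
      · exact Or.inr ⟨⟨c, d, hD⟩, a, b⟩
    · rintro ((⟨⟨c, d, -⟩, a, b⟩ | ⟨⟨c, d, -⟩, a, b⟩) | ⟨⟨c, d, -⟩, a, b⟩)
      · exact ⟨⟨⟨a, b⟩, c⟩, Or.inl d⟩
      · exact ⟨⟨⟨a, b⟩, c⟩, Or.inr (Or.inl d)⟩
      · exact ⟨⟨⟨a, b⟩, c⟩, Or.inr (Or.inr d)⟩
  have hf1 : ∀ l ∈ A, 1 ≤ f l := by
    intro l hl
    have hl' : l ∈ primesIn W z := by rw [hA] at hl; exact (mem_filter.1 hl).1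
    obtain ⟨a1, a2, a3⟩ := hl0 l hl'
    rw [hf]
    exact (one_le_inv₀ a1).2 (by linarith)
  rw [hA1] at hf1 ⊢
  refine (prod_union_le f hf1).trans ?_
  have e1 : ∏ l ∈ D.primeFactors.filter (fun l => W < l ∧ l ≤ z), f l = Ph W z D := by
    rw [hf]; rfl
  rw [e1]
  refine mul_le_mul_of_nonneg_right ?_ (Ph_nonneg W z D)
  refine (prod_union_le f fun l hl => hf1 l (mem_union_left _ hl)).trans ?_
  rw [hf]
  exact le_of_eq rfl

theorem pair (hF : FluStmt) : PairStmt := by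
  obtain ⟨B₀, c, C, hc, hC, hF⟩ := hF
  intro ε hε
  obtain ⟨δ, hδ, hδε, hδ1⟩ : ∃ δ : ℝ, 0 < δ ∧ 3 * δ ≤ ε ∧ δ ≤ 1 :=
    ⟨min (ε / 3) 1, lt_min (by positivity) one_pos, by
      have := min_le_left (ε / 3) 1; linarith, min_le_right _ _⟩
  -- choice of B
  obtain ⟨B₁, hB₁⟩ : ∃ B₁ : ℕ, C * Real.exp (-c * B₁) ≤ δ := by
    obtain ⟨n, hn⟩ := exists_nat_ge (Real.log (C / δ) / c)
    refine ⟨n, ?_⟩
    have h1 : Real.log (C / δ) ≤ c * n := by
      rw [div_le_iff₀ hc] at hn; linarith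
    have h2 : Real.exp (-c * n) ≤ δ / C := by
      have : Real.exp (-c * n) ≤ Real.exp (-Real.log (C / δ)) := Real.exp_le_exp.2 (by linarith)
      rw [Real.exp_neg, Real.exp_log (by positivity), inv_div] at this
      exact this
    calc C * Real.exp (-c * n) ≤ C * (δ / C) := by gcongr
      _ = δ := by field_simp
  obtain ⟨B₂, hB₂⟩ : ∃ B₂ : ℕ, 1 / δ ≤ (2 : ℝ) ^ B₂ := by
    obtain ⟨n, hn⟩ := pow_unbounded_of_one_lt (1 / δ) (by norm_num : (1 : ℝ) < 2)
    exact ⟨n, hn.le⟩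
  refine ⟨B₀ + B₁ + B₂, ?_⟩
  intro W z X N₀ H H' b b' hW hz hH hH' hHQ hH'Q hbb hX
  obtain ⟨S, hS⟩ : ∃ S : Finset ℕ, S = (NN W X N₀).filter (fun N =>
    (H ∣ N + b ∧ Rgh z ((N + b) / H)) ∧ H' ∣ N + b' ∧ Rgh z ((N + b') / H')) := ⟨_, rfl⟩
  rw [← hS]
  have hmem : ∀ N ∈ S, N ∈ Icc 1 X ∧ N ≡ N₀ [MOD primorial W] ∧ (H ∣ N + b ∧
      Rgh z ((N + b) / H)) ∧ H' ∣ N + b' ∧ Rgh z ((N + b') / H') := by
    intro N hN
    rw [hS, mem_filter, NN, mem_filter] at hN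
    exact ⟨hN.1.1, hN.1.2, hN.2⟩
  have hQpos : 0 < primorial W := primorial_pos W
  have hRnn : 0 ≤ (1 + ε) * ((X : ℝ) * (H.gcd H' : ℝ) / ((primorial W : ℝ) * H * H')) *
      VV W z ^ 2 * (Ph W z H * Ph W z H' * Ph W z ((b : ℤ) - b').natAbs) := by
    have := Ph_nonneg W z H
    have := Ph_nonneg W z H'
    have := Ph_nonneg W z ((b : ℤ) - b').natAbs
    have := VV_pos W z
    positivity
  rcases S.eq_empty_or_nonempty with hSe | hSn
  · rw [hSe, card_empty]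
    split
    · exact_mod_cast hRnn
    · simp
  obtain ⟨N1, hN1, hmin⟩ := S.exists_min_image id hSn
  obtain ⟨a1, a2, ⟨a3, -⟩, a4, -⟩ := hmem N1 hN1
  have hdvd : ((H.gcd H' : ℕ) : ℤ) ∣ (b : ℤ) - b' := by
    have e1 : ((H.gcd H' : ℕ) : ℤ) ∣ ((N1 + b : ℕ) : ℤ) := by
      exact_mod_cast (Nat.gcd_dvd_left H H').trans a3
    have e2 : ((H.gcd H' : ℕ) : ℤ) ∣ ((N1 + b' : ℕ) : ℤ) := by
      exact_mod_cast (Nat.gcd_dvd_right H H').trans a4
    have e3 := dvd_sub e1 e2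
    push_cast at e3
    have e4 : (N1 : ℤ) + b - (N1 + b') = b - b' := by ring
    rwa [e4] at e3
  rw [if_pos hdvd]
  -- the modulus
  obtain ⟨y, hy⟩ := a3
  obtain ⟨y', hy'⟩ := a4
  obtain ⟨L, hL⟩ : ∃ L : ℕ, L = primorial W * H.lcm H' := ⟨_, rfl⟩
  have hlcm : 0 < H.lcm H' := Nat.lcm_pos hH hH'
  have hLpos : 0 < L := by rw [hL]; positivity
  obtain ⟨m, hm⟩ : ∃ m : ℕ, m = primorial W * (H' / H.gcd H') := ⟨_, rfl⟩
  obtain ⟨m', hm'⟩ : ∃ m' : ℕ, m' = primorial W * (H / H.gcd H') := ⟨_, rfl⟩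
  have hg : 0 < H.gcd H' := Nat.gcd_pos_of_pos_left _ hH
  have hLm : L = H * m := by
    rw [hL, hm, Nat.lcm, Nat.mul_div_assoc _ (Nat.gcd_dvd_right H H')]
    ring
  have hLm' : L = H' * m' := by
    rw [hL, hm', Nat.lcm, mul_comm H H', Nat.mul_div_assoc _ (Nat.gcd_dvd_left H H')]
    ring
  have hcopL : (primorial W).Coprime (H.lcm H') := by
    have e1 : (primorial W).Coprime (H * H') := Nat.Coprime.mul_right hHQ.symm hH'Q.symm
    exact Nat.Coprime.coprime_dvd_right (Nat.lcm_dvd_mul H H') e1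
  -- sifted classes
  have hcl : ∀ l ∈ primesIn W z, ∃ Ω : Finset ℕ, (∀ r ∈ Ω, r < l) ∧ 1 ≤ Ω.card ∧ Ω.card ≤ 2 ∧
      (¬ l ∣ H → ¬ l ∣ H' → ¬ (l : ℤ) ∣ (b : ℤ) - b' → Ω.card = 2) ∧
      ∀ j : ℕ, ¬ l ∣ y + m * j → ¬ l ∣ y' + m' * j → j % l ∉ Ω := by
    intro l hl
    rw [primesIn, mem_filter, mem_Ioc] at hl
    have hlQ : ¬ l ∣ primorial W := not_dvd_primorial hl.2 hl.1.1
    refine classes l m m' y y' H H' L N1 b b' hl.2 hy hy' hLm hLm' ?_ ?_
    · by_contra hcon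
      push Not at hcon
      obtain ⟨c1, c2⟩ := hcon
      rw [hm] at c1
      rw [hm'] at c2
      have d1 := (hl.2.dvd_mul.1 c1).resolve_left hlQ
      have d2 := (hl.2.dvd_mul.1 c2).resolve_left hlQ
      have d3 : (H / H.gcd H').Coprime (H' / H.gcd H') := Nat.coprime_div_gcd_div_gcd hg
      exact hl.2.one_lt.ne' (Nat.eq_one_of_dvd_coprimes d3 d2 d1)
    · intro c1 c2 c3
      rw [hL] at c3
      have d1 := (hl.2.dvd_mul.1 c3).resolve_left hlQ
      have d2 := d1.trans (Nat.lcm_dvd_mul H H')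
      rcases hl.2.dvd_mul.1 d2 with h | h
      · exact c1 h
      · exact c2 h
  choose! Ω hΩ1 hΩ2 hΩ3 hΩ4 hΩ5 using hcl
  obtain ⟨M, hM⟩ : ∃ M : ℕ, M = X / L + 1 := ⟨_, rfl⟩
  -- injection
  have hcard : (S.card : ℝ) ≤
      (((range M).filter (fun w => ∀ l ∈ primesIn W z, w % l ∉ Ω l)).card : ℝ) := by
    have hmap : ∀ N ∈ S, ∃ j, N = N1 + L * j := by
      intro N hN
      obtain ⟨b1, b2, ⟨b3, -⟩, b4, -⟩ := hmem N hN
      have hle : N1 ≤ N := hmin N hN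
      have e1 : primorial W ∣ N - N1 := (Nat.modEq_iff_dvd' hle).1 (a2.trans b2.symm)
      have e2 : H ∣ N - N1 := by
        have : H ∣ (N + b) - (N1 + b) := Nat.dvd_sub b3 ⟨y, hy⟩
        rwa [Nat.add_sub_add_right] at this
      have e3 : H' ∣ N - N1 := by
        have : H' ∣ (N + b') - (N1 + b') := Nat.dvd_sub b4 ⟨y', hy'⟩
        rwa [Nat.add_sub_add_right] at this
      have e4 : L ∣ N - N1 := by
        rw [hL]; exact hcopL.mul_dvd_of_dvd_of_dvd e1 (Nat.lcm_dvd e2 e3)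
      obtain ⟨j, hj⟩ := e4
      exact ⟨j, by omega⟩
    have hsub : S ⊆ ((range M).filter (fun w => ∀ l ∈ primesIn W z, w % l ∉ Ω l)).image
        (fun j => N1 + L * j) := by
      intro N hN
      obtain ⟨j, hj⟩ := hmap N hN
      obtain ⟨b1, b2, ⟨b3, b3'⟩, b4, b4'⟩ := hmem N hN
      rw [mem_image]
      refine ⟨j, ?_, hj.symm⟩
      rw [mem_filter, mem_range]
      constructor
      · have : L * j ≤ X := by
          have := (mem_Icc.1 b1).2; omega
        have h1 : j ≤ X / L := (Nat.le_div_iff_mul_le hLpos).2 (by rw [mul_comm]; exact this)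
        omega
      · intro l hl
        refine hΩ5 l hl j ?_ ?_
        · intro hd
          have e1 : (N + b) / H = y + m * j := by
            have : N + b = H * (y + m * j) := by
              rw [hj, hLm]
              calc N1 + H * m * j + b = (N1 + b) + H * m * j := by ring
                _ = H * (y + m * j) := by rw [hy]; ring
            rw [this, Nat.mul_div_cancel_left _ hH]
          rw [e1] at b3'
          have := b3' l (mem_filter.1 hl).2 hd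
          have := (mem_Ioc.1 (mem_filter.1 hl).1).2
          omega
        · intro hd
          have e1 : (N + b') / H' = y' + m' * j := by
            have : N + b' = H' * (y' + m' * j) := by
              rw [hj, hLm']
              calc N1 + H' * m' * j + b' = (N1 + b') + H' * m' * j := by ring
                _ = H' * (y' + m' * j) := by rw [hy']; ring
            rw [this, Nat.mul_div_cancel_left _ hH']
          rw [e1] at b4'
          have := b4' l (mem_filter.1 hl).2 hd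
          have := (mem_Ioc.1 (mem_filter.1 hl).1).2
          omega
    exact_mod_cast (card_le_card hsub).trans card_image_le
  -- size of M
  have hLle : L ≤ primorial W * H * H' := by
    rw [hL, mul_assoc]
    exact Nat.mul_le_mul_left _ (Nat.le_of_dvd (by positivity) (Nat.lcm_dvd_mul H H'))
  have hXL : z ^ (B₀ + B₁ + B₂) * L ≤ X := by
    calc z ^ (B₀ + B₁ + B₂) * L ≤ z ^ (B₀ + B₁ + B₂) * (primorial W * H * H') :=
          Nat.mul_le_mul_left _ hLle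
      _ = z ^ (B₀ + B₁ + B₂) * primorial W * H * H' := by ring
      _ ≤ X := hX
  have hMz : z ^ (B₀ + B₁ + B₂) ≤ M := by
    have : z ^ (B₀ + B₁ + B₂) ≤ X / L := (Nat.le_div_iff_mul_le hLpos).2 hXL
    omega
  have hMz0 : z ^ B₀ ≤ M := (Nat.pow_le_pow_right (by omega) (by omega)).trans hMz
  have hFl := hF z M hz hMz0 (primesIn W z) Ω (fun l hl => by
    have h1 := mem_filter.1 hl
    have h2 := mem_Ioc.1 h1.1
    refine ⟨h1.2, ?_, h2.2, hΩ1 l hl, hΩ2 l hl, hΩ3 l hl⟩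
    have h3 : 4 ≤ l := by omega
    rcases Nat.lt_or_ge l 5 with h4 | h4
    · have : l = 4 := by omega
      rw [this] at h1
      exact absurd h1.2 (by norm_num)
    · exact h4)
  refine hcard.trans (hFl.trans ?_)
  -- the product
  have hD0 : ((b : ℤ) - b').natAbs ≠ 0 := by
    rw [Ne, Int.natAbs_eq_zero, sub_eq_zero]
    exact_mod_cast hbb
  have hprod := prod_local W z H H' ((b : ℤ) - b').natAbs (by omega) (by omega) hD0 Ω
    (fun l hl => ⟨hΩ2 l hl, hΩ3 l hl⟩) (fun l hl => by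
      have h1 := mem_filter.1 hl
      have h2 := mem_Ioc.1 h1.1
      rcases Nat.lt_or_ge l 5 with h4 | h4
      · have : l = 4 := by omega
        rw [this] at h1
        exact absurd h1.2 (by norm_num)
      · exact h4)
    (fun l hl c1 c2 c3 => hΩ4 l hl c1 c2 (fun h => c3 (by
      rw [← Int.natCast_dvd_natCast, Int.dvd_natAbs]; exact h)))
  have hzR : (2 : ℝ) ≤ z := by exact_mod_cast hz
  have hlogz : 0 < Real.log z := Real.log_pos (by linarith)
  have hMR : (z : ℝ) ^ (B₀ + B₁ + B₂) ≤ M := by exact_mod_cast hMz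
  have hMpos : (0 : ℝ) < M := lt_of_lt_of_le (by positivity) hMR
  have hexp : C * Real.exp (-c * (Real.log M / Real.log z)) ≤ δ := by
    refine le_trans ?_ hB₁
    refine mul_le_mul_of_nonneg_left (Real.exp_le_exp.2 ?_) hC.le
    have h1 : (B₁ : ℝ) ≤ Real.log M / Real.log z := by
      rw [le_div_iff₀ hlogz]
      have h2 : Real.log ((z : ℝ) ^ (B₀ + B₁ + B₂)) ≤ Real.log M :=
        Real.log_le_log (by positivity) hMR
      rw [Real.log_pow] at h2
      push_cast at h2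
      nlinarith [hlogz, (Nat.cast_nonneg B₀ : (0 : ℝ) ≤ B₀), (Nat.cast_nonneg B₂ : (0 : ℝ) ≤ B₂)]
    nlinarith
  have hXLR : (M : ℝ) ≤ (1 + δ) * ((X : ℝ) * (H.gcd H' : ℝ) / ((primorial W : ℝ) * H * H')) := by
    have e1 : (L : ℝ) * (H.gcd H' : ℝ) = (primorial W : ℝ) * H * H' := by
      have : L * H.gcd H' = primorial W * H * H' := by
        rw [hL, mul_assoc, mul_comm (H.lcm H'), Nat.gcd_mul_lcm]; ring
      exact_mod_cast this
    have hLR : (0 : ℝ) < L := by exact_mod_cast hLpos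
    have hgR : (0 : ℝ) < (H.gcd H' : ℝ) := by exact_mod_cast hg
    have e2 : (X : ℝ) * (H.gcd H' : ℝ) / ((primorial W : ℝ) * H * H') = X / L := by
      rw [← e1]; field_simp
    rw [e2, hM]
    push_cast
    have e3 : ((X / L : ℕ) : ℝ) ≤ X / L := Nat.cast_div_le
    have e4 : 1 ≤ δ * ((X : ℝ) / L) := by
      have f1 : (z : ℝ) ^ (B₀ + B₁ + B₂) ≤ X / L := by
        rw [le_div_iff₀ hLR]; exact_mod_cast hXL
      have f2 : (2 : ℝ) ^ B₂ ≤ (z : ℝ) ^ (B₀ + B₁ + B₂) := by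
        calc (2 : ℝ) ^ B₂ ≤ (z : ℝ) ^ B₂ := by gcongr
          _ ≤ (z : ℝ) ^ (B₀ + B₁ + B₂) := pow_le_pow_right₀ (by linarith) (by omega)
      have f3 : 1 / δ ≤ X / L := hB₂.trans (f2.trans f1)
      rw [div_le_iff₀ hδ] at f3
      linarith
    linarith
  have hVV := VV_pos W z
  have hPn : 0 ≤ Ph W z H * Ph W z H' * Ph W z ((b : ℤ) - b').natAbs :=
    mul_nonneg (mul_nonneg (Ph_nonneg _ _ _) (Ph_nonneg _ _ _)) (Ph_nonneg _ _ _)
  have hT0 : 0 ≤ (X : ℝ) * (H.gcd H' : ℝ) / ((primorial W : ℝ) * H * H') := by positivity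
  have hprod0 : 0 ≤ ∏ l ∈ primesIn W z, (1 - ((Ω l).card : ℝ) / l) := by
    refine prod_nonneg fun l hl => ?_
    have h1 := mem_filter.1 hl
    have h2 := mem_Ioc.1 h1.1
    have h3 : (2 : ℝ) ≤ l := by exact_mod_cast (by omega : 2 ≤ l)
    have h4 : ((Ω l).card : ℝ) ≤ 2 := by exact_mod_cast hΩ3 l hl
    have : ((Ω l).card : ℝ) / l ≤ 1 := by rw [div_le_one (by linarith)]; linarith
    linarith
  calc (1 + C * Real.exp (-c * (Real.log M / Real.log z))) * M *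
        ∏ l ∈ primesIn W z, (1 - ((Ω l).card : ℝ) / l)
      ≤ (1 + δ) * ((1 + δ) * ((X : ℝ) * (H.gcd H' : ℝ) / ((primorial W : ℝ) * H * H'))) *
        (VV W z ^ 2 * (Ph W z H * Ph W z H' * Ph W z ((b : ℤ) - b').natAbs)) := by
        gcongr
    _ = ((1 + δ) * (1 + δ)) * ((X : ℝ) * (H.gcd H' : ℝ) / ((primorial W : ℝ) * H * H')) *
        VV W z ^ 2 * (Ph W z H * Ph W z H' * Ph W z ((b : ℤ) - b').natAbs) := by ring
    _ ≤ (1 + ε) * ((X : ℝ) * (H.gcd H' : ℝ) / ((primorial W : ℝ) * H * H')) *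
        VV W z ^ 2 * (Ph W z H * Ph W z H' * Ph W z ((b : ℤ) - b').natAbs) := by
        gcongr
        nlinarith

end Pool.Agent.Lib.MP_ba0fa5_ag.AA.H75
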